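import Pool.Agent.N996.BP.Ext2
import Pool.Agent.Y121.AHS.Defs
import Pool.Agent.Y133.Half.PwDefs

/-!
# Polarisations: definitions

In the intended use the varieties are the smooth projective ones over an algebraically closed field
with an embedding `ρ` into the complex numbers, `T` is the theory `X ↦ H(ρ X, ℚ)`, and `ψ` is a
polarisation of the Hodge structure `H(ρ X, ℚ)`.
-/

open CategoryTheory AlgebraicGeometry

universe u

namespace Pool.Agent.K6.H61.DH

open Pool.Agent.H914 Pool.Agent.Y121.AHS Pool.Agent.N996.BP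

section Gen

variable {K A : Type} [Field K] [Algebra K ℂ] [Ring A] [Algebra K A]

/-- The spaces `pq p q` form a Hodge structure with polarisation `ψ`: `pq p q = 0` unless `p` and `q` are
between `0` and `n`, the complex conjugation `extConj` maps `pq p q` to `pq q p`, the extension
`extBil ψ` of the rational bilinear form `ψ` vanishes on `pq p q × pq r s` unless `(r, s) = (q, p)`, and
`i ^ (p - q) ψ(x, x̄)` is a positive real number for all nonzero `x` in `pq p q`. -/
def PolOf (n : ℤ) (h : IsRat K) (pq : ℤ → ℤ → Submodule ℂ (Ext K ℂ A)) (ψ : Bil K A) : Prop :=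
  ∀ p q : ℤ, ∀ x ∈ pq p q, extConj h x ∈ pq q p ∧
    (∀ r s : ℤ, ∀ y ∈ pq r s, (r ≠ q ∨ s ≠ p) → extBil ψ x y = 0) ∧
    (x ≠ 0 → (0 ≤ p ∧ p ≤ n ∧ 0 ≤ q ∧ q ≤ n) ∧
      ∃ r : ℝ, 0 < r ∧ Complex.I ^ (p - q) * extBil ψ x (extConj h x) = r)

/-- The map `f` is an endomorphism of the rational Hodge structure `A` with the decomposition `pq`. -/
def HEnd (pq : ℤ → ℤ → Submodule ℂ (Ext K ℂ A)) (f : A →ₗ[K] A) : Prop :=
  ∀ p q : ℤ, ∀ x ∈ pq p q, extMap K ℂ f x ∈ pq p q

/-- The elements of the centre of the algebra of the endomorphisms of the Hodge structure are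
self-adjoint for the form `ψ`. -/
def CentreReal (pq : ℤ → ℤ → Submodule ℂ (Ext K ℂ A)) (ψ : Bil K A) : Prop :=
  ∀ f : A →ₗ[K] A, HEnd pq f → (∀ g : A →ₗ[K] A, HEnd pq g → ∀ c, f (g c) = g (f c)) →
    ∀ c d, ψ (f c) d = ψ c (f d)

end Gen

variable {k : Type u} [Field k] {𝒱 : VarClass k} {ops : CycleOps 𝒱}

/-- The rational bilinear forms on `H(X)`. -/
abbrev Form (T : HodgeTheory ops) (X : 𝒱.Obj) : Type := Bil T.W.K (T.W.H X)

/-- `ψ` is a polarisation of the Hodge structure `H(X)`. -/
def IsPol (T : HodgeTheory ops) (X : 𝒱.Obj) (ψ : Form T X) : Prop :=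
  PolOf X.dim T.rat (T.pq X) ψ

/-- The centre of the algebra of the endomorphisms of the Hodge structure `H(X)` consists of
self-adjoint endomorphisms for the polarisation `ψ`: it is a product of totally real fields. -/
def RealCentre (T : HodgeTheory ops) (X : 𝒱.Obj) (ψ : Form T X) : Prop := CentreReal (T.pq X) ψ

/-- The sum of the Betti numbers of `X`. -/
noncomputable def betti (T : HodgeTheory ops) (X : 𝒱.Obj) : ℕ := Module.finrank T.W.K (T.W.H X)

/-- All Hodge classes on `Z` are absolutely Hodge. -/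
def AllAbs {T : HodgeTheory ops} (D : Conjugates T) (Z : 𝒱.Obj) : Prop :=
  ∀ (j : ℕ) (c : T.W.H Z), IsHodge T Z j c → IsAbsHodge D Z j c

/-- `h n` is at least twice `a n` up to a factor which tends to `1`, with an explicit error. -/
def NearlyTwice (C : ℝ) (h a : ℕ → ℕ) : Prop :=
  ∀ n : ℕ, 0 < n → (2 - C * Real.log (n + 2) / n) * a n ≤ h n

end Pool.Agent.K6.H61.DH
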