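import Pool.Agent.Y133.Half.Main
import Pool.Agent.Y163.Eff

/-!
# The effective form of the one-half law for systems of classes
-/

open CategoryTheory AlgebraicGeometry

universe u v

set_option linter.unusedSectionVars false

namespace Pool.Agent.K6.H61.DH

open Module
open Pool.Agent.H914 Pool.Agent.H914.VarClass Pool.Agent.H914.VarClass.Obj
  Pool.Agent.H914.WeilCohomology Pool.Agent.Y133.Half

variable {k : Type u} [Field k] {𝒱 : VarClass k} {ops : CycleOps 𝒱}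
  {W : WeilCohomology.{u, v} ops} {P Q Z Z' P' X : 𝒱.Obj}

variable (S : Sys W)

/-- **The effective lower bound.** -/
theorem lower_eff {T : Sys W} (hST : ∀ X, S.C X ≤ T.C X) (hNum : ∀ n, S.Num (pw X n) = ⊥)
    (hX : 0 < finrank W.K (W.H X)) {m : ℕ} (θ : P ≅ pw X m)
    (M : ℕ → Submodule W.K (W.H P)) (hM : ∀ n, ∀ a ∈ S.Op P P, ∀ m ∈ M n, a m ∈ M n) (l : ℕ)
    (hlt : ∀ n < l, M n < M (n + 1)) (hT : M l ≤ T.C P) {l' n : ℕ} (hl' : 0 < l')
    (hn : n = m % 2 + (l' + l' + 1) + 1) :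
    (l : ℝ) * (1 - ((m + m % 2 + 2 : ℕ) : ℝ) / 2 * (finrank W.K (W.H X) : ℝ) ^ (m + 3) *
      Real.log (l' + 2) / l') * S.a (pw X n) ≤ finrank W.K (T.C (pw X n)) := by
  set b := finrank W.K (W.H X) with hb
  have hb1 : (1 : ℝ) ≤ b := by exact_mod_cast hX
  set m₀ := m % 2 with hm₀
  obtain ⟨κ, hj⟩ : ∃ κ, m + m₀ + 2 = 2 * (κ + 1) := ⟨(m + m₀) / 2, by omega⟩
  set Y := pw X l' with hY
  set P₀ := pw X m₀ with hP₀
  let φ : P₀.prod (Y.prod Y) ≅ pw X n :=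
    prodCongr (Iso.refl _) (pwAdd X l' l') ≪≫ pwAdd X m₀ (l' + l' + 1) ≪≫
      eqToIso (congrArg (pw X) hn.symm)
  obtain ⟨g, hg, hs⟩ := S.key_chain hST P (P₀.prod (Y.prod Y)) M hM l hlt hT
  rw [T.finrank_C_iso φ] at hs
  have hdP : finrank W.K (W.H P) = b ^ (m + 1) := by rw [finrank_iso θ, finrank_pw]
  have hdP₀ : finrank W.K (W.H P₀) = b ^ (m₀ + 1) := finrank_pw _ _
  have hal : S.a (Y.prod Y) = S.al X l' := rfl
  have haP : S.a ((P.prod P₀).prod (Y.prod Y)) = S.al X (l' + (κ + 1)) := by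
    rw [S.a_iso (prodCongr (prodCongr θ (Iso.refl _) ≪≫ pwAdd X m m₀) (Iso.refl _))]
    exact S.a_pw X (by omega)
  have hup : S.a (pw X n) ≤ b ^ (m₀ + 1) * S.al X l' := by
    rw [← S.a_iso φ, ← hdP₀]
    exact S.a_le _ _
  have halC : ∀ q, S.al X q = finrank W.K (S.C ((pw X q).prod (pw X q))) := by
    intro q
    have h1 := S.a_add_num (pw X (q + q + 1))
    rw [hNum, finrank_bot, add_zero, S.finrank_C_iso (pwAdd X q q).symm] at h1
    exact (S.a_iso (pwAdd X q q)).trans h1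
  have h0 : S.al X 0 ≤ b ^ 2 := by
    rw [halC]
    refine (Submodule.finrank_le _).trans (le_of_eq ?_)
    rw [Pool.Agent.Y133.Half.finrank_prod]
    change finrank W.K (W.H X) * finrank W.K (W.H X) = _
    rw [← hb]
    ring
  have hgr : ∀ q, (b ^ 2) ^ (q + 1) ≤ S.al X q * (q + 2) ^ (b ^ 2) := by
    intro q
    have h1 := S.growth X q
    rw [← halC, ← hb] at h1
    rw [← pow_mul]
    exact h1
  have heta := Pool.Agent.Y163.eta_le (α := fun q => S.al X q) (b := b ^ 2) (e := b ^ 2)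
    (by positivity) h0 (fun q => by
      have := S.al_convex X q
      rw [mul_comm] at this
      exact this) hgr κ hl'
  set η : ℝ := (((b ^ 2 : ℕ) : ℝ)) ^ (κ + 1) - (S.al X (l' + (κ + 1)) : ℝ) / S.al X l' with hη
  have hpos : 0 < S.al X l' := by
    apply Nat.pos_of_ne_zero
    intro h
    have := hgr l'
    rw [h, zero_mul] at this
    have h2 : 0 < (b ^ 2) ^ (l' + 1) := by positivity
    omega
  have hposR : (0 : ℝ) < S.al X l' := by exact_mod_cast hpos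
  have hηal : η * S.al X l' = ((b : ℝ) ^ 2) ^ (κ + 1) * S.al X l' - S.al X (l' + (κ + 1)) := by
    rw [hη]
    push_cast
    field_simp
  have hr : ∀ i ∈ Finset.range l, ((b : ℝ) ^ (m₀ + 1) - η) * S.al X l' ≤
      S.r P (g i) (P₀.prod (Y.prod Y)) := by
    intro i hi
    obtain ⟨h1, h2, h3⟩ := hg i (Finset.mem_range.1 hi)
    have h4 := S.r_lower (P₀ := P₀) h1 h2 h3 Y
    rw [haP, hdP, hdP₀, hal] at h4
    have h5 : (S.al X (l' + (κ + 1)) : ℝ) + (b : ℝ) ^ (m₀ + 1) * S.al X l' ≤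
        S.r P (g i) (P₀.prod (Y.prod Y)) + (b : ℝ) ^ (m + 1) * (b : ℝ) ^ (m₀ + 1) *
          S.al X l' := by exact_mod_cast h4
    have h6 : (b : ℝ) ^ (m + 1) * (b : ℝ) ^ (m₀ + 1) = ((b : ℝ) ^ 2) ^ (κ + 1) := by
      rw [← pow_add, ← pow_mul]
      congr 1
      omega
    rw [h6] at h5
    have h7 : ((b : ℝ) ^ (m₀ + 1) - η) * S.al X l' =
        (b : ℝ) ^ (m₀ + 1) * S.al X l' - η * S.al X l' := by ring
    rw [h7, hηal]
    linarith
  have hsum : (l : ℝ) * (((b : ℝ) ^ (m₀ + 1) - η) * S.al X l') ≤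
      finrank W.K (T.C (pw X n)) := by
    calc (l : ℝ) * (((b : ℝ) ^ (m₀ + 1) - η) * S.al X l')
        = ∑ i ∈ Finset.range l, ((b : ℝ) ^ (m₀ + 1) - η) * S.al X l' := by
          rw [Finset.sum_const, Finset.card_range, nsmul_eq_mul]
      _ ≤ ∑ i ∈ Finset.range l, (S.r P (g i) (P₀.prod (Y.prod Y)) : ℝ) :=
          Finset.sum_le_sum hr
      _ ≤ _ := by exact_mod_cast hs
  -- the error term
  have hl'R : (0 : ℝ) < l' := by exact_mod_cast hl'
  have hκ : ((m + m₀ + 2 : ℕ) : ℝ) / 2 = κ + 1 := by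
    rw [hj]
    push_cast
    ring
  have hbm : (0 : ℝ) < (b : ℝ) ^ (m₀ + 1) := by positivity
  have herr : η ≤ (b : ℝ) ^ (m₀ + 1) *
      (((m + m₀ + 2 : ℕ) : ℝ) / 2 * (b : ℝ) ^ (m + 3) * Real.log (l' + 2) / l') := by
    refine heta.trans (le_of_eq ?_)
    rw [hκ]
    have h8 : (((b ^ 2 : ℕ) : ℝ)) ^ (κ + 1) * ((b ^ 2 : ℕ) : ℝ) =
        (b : ℝ) ^ (m₀ + 1) * (b : ℝ) ^ (m + 3) := by
      push_cast
      rw [← pow_mul, ← pow_add, ← pow_add]
      congr 1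
      omega
    calc ((κ : ℝ) + 1) * (((b ^ 2 : ℕ) : ℝ)) ^ (κ + 1) * ((b ^ 2 : ℕ) : ℝ) *
          Real.log (l' + 2) / l'
        = ((κ : ℝ) + 1) * ((((b ^ 2 : ℕ) : ℝ)) ^ (κ + 1) * ((b ^ 2 : ℕ) : ℝ)) *
          Real.log (l' + 2) / l' := by ring
      _ = _ := by rw [h8]; ring
  set ε : ℝ := ((m + m₀ + 2 : ℕ) : ℝ) / 2 * (b : ℝ) ^ (m + 3) * Real.log (l' + 2) / l' with hε
  have hT0 : (0 : ℝ) ≤ finrank W.K (T.C (pw X n)) := Nat.cast_nonneg _
  have hl0 : (0 : ℝ) ≤ l := Nat.cast_nonneg _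
  have ha0 : (0 : ℝ) ≤ S.a (pw X n) := Nat.cast_nonneg _
  rcases le_or_gt 1 ε with h | h
  · refine le_trans ?_ hT0
    apply mul_nonpos_of_nonpos_of_nonneg _ ha0
    exact mul_nonpos_of_nonneg_of_nonpos hl0 (by linarith)
  · have hup' : (S.a (pw X n) : ℝ) ≤ (b : ℝ) ^ (m₀ + 1) * S.al X l' := by exact_mod_cast hup
    calc (l : ℝ) * (1 - ε) * S.a (pw X n)
        ≤ (l : ℝ) * (1 - ε) * ((b : ℝ) ^ (m₀ + 1) * S.al X l') :=
          mul_le_mul_of_nonneg_left hup' (mul_nonneg hl0 (by linarith))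
      _ = (l : ℝ) * (((b : ℝ) ^ (m₀ + 1) - (b : ℝ) ^ (m₀ + 1) * ε) * S.al X l') := by ring
      _ ≤ (l : ℝ) * (((b : ℝ) ^ (m₀ + 1) - η) * S.al X l') := by
          apply mul_le_mul_of_nonneg_left _ hl0
          apply mul_le_mul_of_nonneg_right _ hposR.le
          linarith
      _ ≤ _ := hsum

end Pool.Agent.K6.H61.DH
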