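import Pool.Agent.K6.H61.DH.Eff
import Pool.Agent.K6.H61.DH.Defs
import Pool.Agent.Y121.AHS.Conv
import Pool.Agent.Y133.Half.PairLaw

/-!
# The effective one-half law for absolutely Hodge classes
-/

open CategoryTheory AlgebraicGeometry

universe u

set_option linter.unusedSectionVars false

namespace Pool.Agent.K6.H61.DH

open Module
open Pool.Agent.H914 Pool.Agent.H914.VarClass Pool.Agent.H914.VarClass.Obj
  Pool.Agent.H914.WeilCohomology Pool.Agent.Y121 Pool.Agent.Y121.AHS
open Pool.Agent.Y133.Half (pw ClassPred Sys)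

variable {k : Type u} [Field k] {𝒱 : VarClass k} {ops : CycleOps 𝒱}
variable {T : HodgeTheory ops} {X : 𝒱.Obj}

lemma allAbs_iff (D : Conjugates T) (Z : 𝒱.Obj) :
    AllAbs D Z ↔ (AH.absSys (toD D)).C Z = (AH.hodgeSys (toH T)).C Z := by
  constructor
  · intro h
    refine le_antisymm (AH.abs_le_hodge (toD D) Z) ?_
    intro c hc
    refine ClassPred.sp_ind (Q := AH.hodgePred (toH T))
      (q := fun c => c ∈ (AH.absSys (toD D)).C Z) ?_ ?_ ?_ hc
    · intro j x hx
      exact ClassPred.sp_of (Q := AH.absPred (toD D)) (j := j) (h j x hx)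
    · exact Submodule.zero_mem _
    · intro a b ha hb; exact Submodule.add_mem _ ha hb
  · intro h j c hc
    have h1 : c ∈ (AH.hodgeSys (toH T)).C Z :=
      ClassPred.sp_of (Q := AH.hodgePred (toH T)) (j := j) hc
    rw [← h] at h1
    have h2 := ClassPred.sp_proj (Q := AH.absPred (toD D)) h1 j
    have e : H914.proj (T.W.isInternal Z) (2 * j) c = c := H914.proj_same (T.W.isInternal Z) hc.1
    have h3 : (AH.absPred (toD D)).P Z j (H914.proj (T.W.isInternal Z) (2 * j) c) := h2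
    rw [e] at h3
    exact h3

lemma absDim_le (D : Conjugates T) (Z : 𝒱.Obj) : absDim D Z ≤ hodgeDim T Z :=
  Submodule.finrank_mono (AH.abs_le_hodge (toD D) Z)

lemma allAbs_of_subsingleton [Subsingleton (T.W.H X)] (D : Conjugates T) (n : ℕ) :
    AllAbs D (pw X n) := by
  rw [allAbs_iff]
  have h1 : finrank T.W.K (T.W.H (pw X n)) = 0 := by
    rw [Pool.Agent.Y133.Half.finrank_pw, finrank_zero_of_subsingleton,
      zero_pow (Nat.succ_ne_zero n)]
  have h2 : Subsingleton (T.W.H (pw X n)) := finrank_zero_iff.1 h1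
  have h3 : Subsingleton ((toH T).W.H (pw X n)) := h2
  exact Subsingleton.elim _ _

/-- **The effective one-half law.** -/
theorem eff_half (D : Conjugates T) (X : 𝒱.Obj) {κ : ℕ} (hfail : ¬ AllAbs D (pw X κ)) {n : ℕ}
    (hn : 0 < n) :
    (2 - 5 * (κ + 4) * (finrank T.W.K (T.W.H X) : ℝ) ^ (κ + 4) * Real.log (n + 2) / n) *
      absDim D (pw X n) ≤ hodgeDim T (pw X n) := by
  have hnt : Nontrivial (T.W.H X) := by
    by_contra h
    rw [not_nontrivial_iff_subsingleton] at h
    exact hfail (allAbs_of_subsingleton D κ)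
  have hnt' : Nontrivial ((toH T).W.H X) := hnt
  obtain ⟨e, he, he1⟩ := AH.exists_tr (toD D) X
  set S := AH.absSys (toD D) with hS
  set T' := AH.hodgeSys (toH T) with hT'
  have hST : ∀ X, S.C X ≤ T'.C X := AH.abs_le_hodge (toD D)
  have hNum : ∀ n, S.Num (pw X n) = ⊥ := fun n => AH.abs_num (toD D) (pw X n)
  have hfin : 0 < finrank (toH T).W.K ((toH T).W.H X) := Module.finrank_pos
  have hb1 : (1 : ℝ) ≤ (finrank T.W.K (T.W.H X) : ℝ) := by
    have h1 : 1 ≤ finrank (toH T).W.K ((toH T).W.H X) := hfin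
    have h2 : 1 ≤ finrank T.W.K (T.W.H X) := h1
    exact_mod_cast h2
  set b : ℝ := (finrank T.W.K (T.W.H X) : ℝ) with hb
  have hnR : (0 : ℝ) < n := by exact_mod_cast hn
  have hlog1 : (1 : ℝ) ≤ Real.log (n + 2) := by
    rw [Real.le_log_iff_exp_le (by positivity)]
    have h1 := Real.exp_one_lt_d9
    have h2 : (1 : ℝ) ≤ n := by exact_mod_cast hn
    linarith
  have hκ0 : (0 : ℝ) ≤ κ := Nat.cast_nonneg _
  have hbp : (1 : ℝ) ≤ b ^ (κ + 4) := one_le_pow₀ hb1
  have ha0 : (0 : ℝ) ≤ absDim D (pw X n) := Nat.cast_nonneg _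
  have hle : (absDim D (pw X n) : ℝ) ≤ hodgeDim T (pw X n) := by exact_mod_cast absDim_le D _
  have hlt : S.C (pw X κ) < T'.C (pw X κ) := by
    refine lt_of_le_of_ne (hST _) fun h => hfail ((allAbs_iff D _).2 h)
  obtain ⟨m, hmp, hmκ, hm⟩ : ∃ m, m % 2 = n % 2 ∧ m ≤ κ + 1 ∧ S.C (pw X m) < T'.C (pw X m) := by
    by_cases h : κ % 2 = n % 2
    · exact ⟨κ, h, by omega, hlt⟩
    · exact ⟨κ + 1, by omega, le_rfl, Sys.lt_succ hST he he1 hlt⟩
  by_cases hn3 : n ≤ 3
  · refine le_trans ?_ hle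
    have h1 : (1 : ℝ) ≤ 5 * (κ + 4) * b ^ (κ + 4) * Real.log (n + 2) / n := by
      rw [le_div_iff₀ hnR]
      have h2 : (n : ℝ) ≤ 3 := by exact_mod_cast hn3
      have h3 : (20 : ℝ) ≤ 5 * (κ + 4) := by linarith
      have h4 : (20 : ℝ) * 1 ≤ 5 * (κ + 4) * b ^ (κ + 4) :=
        mul_le_mul h3 hbp (by norm_num) (by linarith)
      have h5 : (20 : ℝ) * 1 * 1 ≤ 5 * (κ + 4) * b ^ (κ + 4) * Real.log (n + 2) :=
        mul_le_mul h4 hlog1 (by norm_num) (by linarith)
      linarith
    nlinarith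
  obtain ⟨l', hl', hnl⟩ : ∃ l', 0 < l' ∧ n = m % 2 + (l' + l' + 1) + 1 :=
    ⟨(n - m % 2 - 2) / 2, by omega, by omega⟩
  have key := lower_eff S (T := T') hST hNum hfin (P := pw X m) (Iso.refl _)
    (fun n => match n with
      | 0 => ⊥
      | 1 => S.C (pw X m)
      | _ + 2 => T'.C (pw X m)) (by
      rintro (_ | _ | n) a ha x hx
      · rw [(Submodule.mem_bot _).1 hx, map_zero]; exact Submodule.zero_mem _
      · exact Pool.Agent.Y133.Half.Sys.Op.apply (T := S) (fun _ => le_rfl) ha hx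
      · exact Pool.Agent.Y133.Half.Sys.Op.apply hST ha hx) 2 (by
      intro n hn
      interval_cases n
      · rw [bot_lt_iff_ne_bot]
        intro h
        obtain ⟨y, hy, hy1⟩ := S.exists_lam he he1 m
        change S.C (pw X m) = ⊥ at h
        rw [h, Submodule.mem_bot] at hy
        exact Pool.Agent.Y133.Half.ne_zero_of_tr hy1 hy
      · exact hm) le_rfl hl' hnl
  have e1 : S.a (pw X n) = absDim D (pw X n) := (AH.absDim_eq_a (toD D) (pw X n)).symm
  rw [e1] at key
  refine le_trans (mul_le_mul_of_nonneg_right ?_ ha0) key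
  have hl'R : (0 : ℝ) < l' := by exact_mod_cast hl'
  have h1 : (((m + m % 2 + 2 : ℕ) : ℝ)) ≤ κ + 4 := by
    have : m + m % 2 + 2 ≤ κ + 4 := by omega
    exact_mod_cast this
  have h2 : b ^ (m + 3) ≤ b ^ (κ + 4) := pow_le_pow_right₀ hb1 (by omega)
  have h3 : Real.log (l' + 2) / l' ≤ 5 * (Real.log (n + 2) / n) := by
    have h4 : Real.log (l' + 2) ≤ Real.log (n + 2) := by
      apply Real.log_le_log (by positivity)
      have : (l' : ℝ) ≤ n := by
        have : l' ≤ n := by omega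
        exact_mod_cast this
      linarith
    have h5 : (n : ℝ) ≤ 5 * l' := by
      have : n ≤ 5 * l' := by omega
      exact_mod_cast this
    rw [div_le_iff₀ hl'R]
    have h6 : 5 * (Real.log (n + 2) / n) * l' = Real.log (n + 2) * (5 * l' / n) := by ring
    rw [h6]
    have h7 : (1 : ℝ) ≤ 5 * l' / n := by rw [le_div_iff₀ hnR]; linarith
    nlinarith
  have h8 : 0 ≤ Real.log (l' + 2) / l' := by
    apply div_nonneg _ hl'R.le
    apply Real.log_nonneg
    linarith
  have h9 : ((m + m % 2 + 2 : ℕ) : ℝ) * b ^ (m + 3) * (Real.log (l' + 2) / l') ≤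
      (κ + 4) * b ^ (κ + 4) * (5 * (Real.log (n + 2) / n)) := by
    apply mul_le_mul _ h3 h8 (by positivity)
    exact mul_le_mul h1 h2 (by positivity) (by positivity)
  have e2 : (finrank (toH T).W.K ((toH T).W.H X) : ℝ) = b := rfl
  rw [e2]
  have e3 : ((2 : ℕ) : ℝ) * (1 - ((m + m % 2 + 2 : ℕ) : ℝ) / 2 * b ^ (m + 3) *
      Real.log (l' + 2) / l') = 2 - ((m + m % 2 + 2 : ℕ) : ℝ) * b ^ (m + 3) *
        (Real.log (l' + 2) / l') := by
    push_cast
    ring
  rw [e3]
  have e4 : 5 * ((κ : ℝ) + 4) * b ^ (κ + 4) * Real.log (n + 2) / n =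
      (κ + 4) * b ^ (κ + 4) * (5 * (Real.log (n + 2) / n)) := by ring
  rw [e4]
  linarith

/-- The absolutely Hodge classes are always many. -/
theorem poly_bound (D : Conjugates T) (X : 𝒱.Obj) (n : ℕ) :
    hodgeDim T (pw X n) ≤ finrank T.W.K (T.W.H X) *
      (n + 2) ^ (finrank T.W.K (T.W.H X) ^ 2) * absDim D (pw X n) := by
  set b := finrank T.W.K (T.W.H X) with hb
  have h0 : hodgeDim T (pw X n) ≤ b ^ (n + 1) := by
    have h1 : hodgeDim T (pw X n) ≤ finrank T.W.K (T.W.H (pw X n)) := Submodule.finrank_le _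
    rwa [Pool.Agent.Y133.Half.finrank_pw] at h1
  refine h0.trans ?_
  rcases Nat.eq_zero_or_pos b with hb0 | hb0
  · rw [hb0, zero_pow (Nat.succ_ne_zero n)]
    exact Nat.zero_le _
  set S := AH.absSys (toD D) with hS
  -- the bound for an odd exponent
  have hodd : ∀ q, b ^ (2 * (q + 1)) ≤ absDim D (pw X (q + q + 1)) * (q + 2) ^ (b ^ 2) := by
    intro q
    have h1 := S.growth X q
    rw [S.finrank_C_iso (Pool.Agent.Y133.Half.pwAdd X q q)] at h1
    exact h1
  have hmono : ∀ q, absDim D (pw X q) ≤ absDim D (pw X (q + 1)) := by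
    intro q
    refine S.finrank_C_le (Pool.Agent.Y133.Half.pfst X q) ?_
    intro x y hxy
    have hnt : Nontrivial ((toH T).W.H X) := by
      apply Module.nontrivial_of_finrank_pos (R := (toH T).W.K)
      exact hb0
    have h3 : Pool.Agent.Y133.Half.xp (toH T).W (x - y) (1 : (toH T).W.H X) = 0 := by
      rw [Pool.Agent.Y133.Half.xp, map_one, mul_one, map_sub]
      exact sub_eq_zero.2 hxy
    exact sub_eq_zero.1 (Pool.Agent.Y133.Half.xp_eq_zero_right one_ne_zero h3)
  obtain ⟨q, hq | hq⟩ : ∃ q, n = q + q + 1 ∨ n = q + q + 2 ∨ n = 0 := by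
    refine ⟨(n - 1) / 2, ?_⟩
    omega
  · subst hq
    calc b ^ (q + q + 1 + 1) = b ^ (2 * (q + 1)) := by congr 1; ring
      _ ≤ absDim D (pw X (q + q + 1)) * (q + 2) ^ (b ^ 2) := hodd q
      _ ≤ absDim D (pw X (q + q + 1)) * (b * (q + q + 1 + 2) ^ (b ^ 2)) := by
          apply Nat.mul_le_mul_left
          calc (q + 2) ^ (b ^ 2) ≤ (q + q + 1 + 2) ^ (b ^ 2) :=
                Nat.pow_le_pow_left (by omega) _
            _ ≤ b * (q + q + 1 + 2) ^ (b ^ 2) := Nat.le_mul_of_pos_left _ hb0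
      _ = _ := by ring
  · rcases hq with hq | hq
    · subst hq
      calc b ^ (q + q + 2 + 1) = b * b ^ (2 * (q + 1)) := by
            rw [← pow_succ']
            congr 1
            ring
        _ ≤ b * (absDim D (pw X (q + q + 1)) * (q + 2) ^ (b ^ 2)) :=
            Nat.mul_le_mul_left _ (hodd q)
        _ ≤ b * (absDim D (pw X (q + q + 2)) * (q + q + 2 + 2) ^ (b ^ 2)) := by
            apply Nat.mul_le_mul_left
            exact Nat.mul_le_mul (hmono _) (Nat.pow_le_pow_left (by omega) _)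
        _ = _ := by ring
    · subst hq
      have hnt : Nontrivial ((toH T).W.H X) := by
        apply Module.nontrivial_of_finrank_pos (R := (toH T).W.K)
        exact hb0
      have h1 : 0 < absDim D (pw X 0) := Sys.finrank_pos_pw (X := X) S 0
      have h2 : 1 ≤ (0 + 2) ^ (b ^ 2) := Nat.one_le_two_pow
      calc b ^ (0 + 1) = b * 1 * 1 := by ring
        _ ≤ b * (0 + 2) ^ (b ^ 2) * absDim D (pw X 0) :=
            Nat.mul_le_mul (Nat.mul_le_mul_left _ h2) h1

end Pool.Agent.K6.H61.DH
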